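import Pool.Agent.TH182.J302
import Pool.Agent.TH215.TM.Asm
import Pool.Agent.V5helper89.NCCR.Main

/-!
# A Gorenstein threefold with a crepant resolution and without a non-commutative one

Let `R = ℂ[x, y, z, w] / (w⁴ + x³ + y³ + z³)`, a normal Gorenstein domain of dimension three of
finite type over `ℂ`. Then `Spec R` has a crepant resolution (the blow-up of the origin), but `R`
has no non-commutative crepant resolution: every nonzero finitely generated reflexive `R`-module
`M` with maximal Cohen-Macaulay endomorphism ring is projective, so that `R` would have finite
global dimension if `End_R(M)` were a non-commutative crepant resolution.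
-/

set_option autoImplicit false

open CategoryTheory AlgebraicGeometry
open Pool.Agent.Helper165 Pool.Agent.TH215.TM Pool.Agent.V5helper89.NCCR

namespace Pool.Agent.Results.MP_edf92a_ag.CrepantWithoutNCCR

/-- For three-dimensional normal Gorenstein domains `R` of finite type over `ℂ`, the existence of
a crepant resolution of `Spec R` does not imply the existence of a non-commutative crepant
resolution of `R`: a counterexample is `RR = ℂ[x, y, z, w] / (w⁴ + x³ + y³ + z³)`. -/
theorem result :
    IsNormalGorensteinThreefold RR ∧ HasCrepantResolution RR ∧ ¬ HasNCCR RR := by
  have hR := Pool.Agent.TH480.J295.isDomain_RR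
  have hB := Pool.Agent.TH480.J295.isDomain_BB
  have hY : IsIntegral YY := Pool.Agent.TH480.J303.YY_integral
  refine ⟨?_, ⟨YY, hY, ff, ?_⟩, not_hasNCCR⟩
  · exact
      { domain := hR
        normal := Pool.Agent.TH480.J296.integrallyClosed_RR
        gorenstein := gorenstein_RR
        dim := Pool.Agent.TH480.J296.dim_RR
        finiteType := Algebra.FiniteType.trans (S := S3) inferInstance inferInstance }
  · exact
      { smooth := Pool.Agent.TH480.J303.ff_smooth Pool.Agent.TH480.J298.BB_smooth
          Pool.Agent.TH480.J297.chartW Pool.Agent.TH480.J297.chartX
        proper := Pool.Agent.TH480.J303.ff_proper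
        birational := Pool.Agent.TH480.J303.ff_birational
        crepant := Pool.Agent.TH182.TMC.crepant Pool.Agent.TH480.J297.chartW
          Pool.Agent.TH480.J297.chartX }

end Pool.Agent.Results.MP_edf92a_ag.CrepantWithoutNCCR
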